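import Pool.Agent.L0h32.CX.Stm

/-!
# Project CX: NXT
-/

set_option autoImplicit false
set_option linter.all false

namespace Pool.Agent.L0h88.CX

open Relation
open Pool.Agent.H630R2.LA (LimAut Sym fz Fr Cfg Step init initTape WS lrel bitS ix nr Ann keep)
open Pool.Agent.L0h32.CX

section defs

variable {A : Type} {h : ℕ} {rel : A → Fin (2 ^ h) → Fin (2 ^ h) → Bool} {p0 : Fin (2 ^ h)}
  {facc : Fin (2 ^ h) → Bool}

lemma hop2 {τ : ℕ → Sym (WS A)} {t : ℕ} {m m' : Mem A} (hh : Hop h m m') (hb : BdM h m') :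
    ReflTransGen (RS h rel p0 facc τ (t + 1)) (.hm m, t) (.hm m', t) := by
  have h1 : RS h rel p0 facc τ (t + 1) (.hm m, t) (.h1 m', t + 1) :=
    ⟨Nat.le_succ t, hb, true, Tr.hop m m' _ hh, fun _ => rfl, fun h => absurd h (by decide)⟩
  have h2 : RS h rel p0 facc τ (t + 1) (.h1 m', t + 1) (.hm m', t) :=
    ⟨le_rfl, hb, false, Tr.back m' _, fun h => absurd h (by decide), fun _ => rfl⟩
  exact (ReflTransGen.single h1).tail h2

lemma exit2 {τ : ℕ → Sym (WS A)} {t : ℕ} {m : Mem A} {x : Wr} (hh : Exit h p0 m x)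
    (hb : BdW h x) :
    ReflTransGen (RS h rel p0 facc τ (t + 1)) (.hm m, t) (.wr x, t + 2) := by
  have h1 : RS h rel p0 facc τ (t + 1) (.hm m, t) (.ex x, t + 1) :=
    ⟨Nat.le_succ t, hb, true, Tr.exi m x _ hh, fun _ => rfl, fun h => absurd h (by decide)⟩
  have h2 : RS h rel p0 facc τ (t + 1) (.ex x, t + 1) (.wr x, t + 2) :=
    ⟨le_rfl, hb, true, Tr.wrt x _, fun _ => rfl, fun h => absurd h (by decide)⟩
  exact (ReflTransGen.single h1).tail h2

lemma ix_val (n : ℕ) : (ix h n).val = n % 2 ^ h := rfl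

lemma ix_lt {n : ℕ} (hn : n < 2 ^ h) : (ix h n).val = n := Nat.mod_eq_of_lt hn

open Classical in
lemma cnt_succ (R : Fin (2 ^ h) → Prop) {y : ℕ} (hy : y < 2 ^ h) :
    (Finset.univ.filter fun q : Fin (2 ^ h) => q.val < y + 1 ∧ R q).card =
      (Finset.univ.filter fun q : Fin (2 ^ h) => q.val < y ∧ R q).card +
        (if R (ix h y) then 1 else 0) := by
  by_cases hR : R (ix h y)
  · rw [if_pos hR]
    have e : (Finset.univ.filter fun q : Fin (2 ^ h) => q.val < y + 1 ∧ R q) =
        insert (ix h y) (Finset.univ.filter fun q : Fin (2 ^ h) => q.val < y ∧ R q) := by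
      ext q
      simp only [Finset.mem_filter, Finset.mem_univ, true_and, Finset.mem_insert]
      constructor
      · rintro ⟨h1, h2⟩
        by_cases h3 : q.val = y
        · left
          apply Fin.ext
          rw [ix_lt hy, h3]
        · right
          exact ⟨by omega, h2⟩
      · rintro (h1 | ⟨h1, h2⟩)
        · rw [h1]
          refine ⟨?_, hR⟩
          rw [ix_lt hy]
          exact Nat.lt_succ_self y
        · exact ⟨by omega, h2⟩
    rw [e, Finset.card_insert_of_notMem]
    intro h1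
    have h2 := (Finset.mem_filter.1 h1).2.1
    rw [ix_lt hy] at h2
    exact lt_irrefl _ h2
  · rw [if_neg hR, add_zero]
    congr 1
    ext q
    simp only [Finset.mem_filter, Finset.mem_univ, true_and]
    constructor
    · rintro ⟨h1, h2⟩
      refine ⟨?_, h2⟩
      by_contra h3
      have h4 : q = ix h y := by
        apply Fin.ext
        rw [ix_lt hy]
        omega
      exact hR (h4 ▸ h2)
    · rintro ⟨h1, h2⟩
      exact ⟨by omega, h2⟩

open Classical in
/-- the counts -/
noncomputable def cnt (rel : A → Fin (2 ^ h) → Fin (2 ^ h) → Bool) (p0 : Fin (2 ^ h))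
    (w : List A) (t y : ℕ) : ℕ :=
  (Finset.univ.filter fun q : Fin (2 ^ h) => q.val < y ∧ nr h rel p0 w (t + 1) q).card

lemma card_le (s : Finset (Fin (2 ^ h))) : s.card ≤ 2 ^ h := by
  have := Finset.card_le_univ s
  rwa [Fintype.card_fin] at this

lemma cN_le (w : List A) (t : ℕ) : cN h rel p0 w t ≤ 2 ^ h := card_le _

lemma cnt_le (w : List A) (t y : ℕ) : cnt rel p0 w t y ≤ 2 ^ h := card_le _

open Classical in
lemma cnt_zero (w : List A) (t : ℕ) : cnt rel p0 w t 0 = 0 := by
  unfold cnt
  rw [Finset.card_eq_zero, Finset.filter_eq_empty_iff]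
  rintro q - ⟨h1, -⟩
  exact Nat.not_lt_zero _ h1

lemma cnt_top (w : List A) (t : ℕ) : cnt rel p0 w t (2 ^ h) = cN h rel p0 w (t + 1) := by
  unfold cnt cN
  congr 1
  ext q
  simp only [Finset.mem_filter, Finset.mem_univ, true_and]
  exact ⟨fun h1 => h1.2, fun h1 => ⟨q.2, h1⟩⟩

/-- the memory in the loop -/
def mem0 (x : Wr) (a : Option A) (y cn : ℕ) (b0 : Bool) : Mem A :=
  ⟨x.first, x.k, x.c, x.cb, a, 0, y, cn, b0, 0, 0, false, 0⟩

lemma loop (hE : S_ENU) {w : List A} {t : ℕ} {τ : ℕ → Sym (WS A)} (ht : t < w.length)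
    (hA : Ann h rel p0 w τ (t + 1)) {x : Wr} (hx : WOK h rel p0 w t x) :
    ∀ y, y ≤ 2 ^ h → ∃ b0 : Bool, (0 < y → (b0 = true ↔ nr h rel p0 w (t + 1) (ix h 0))) ∧
      ReflTransGen (RS h rel p0 facc τ (t + 1)) (.hm (start x w[t]? 0), t)
        (.hm (mem0 x w[t]? y (cnt rel p0 w t y) b0), t) := by
  intro y
  induction y with
  | zero =>
    intro _
    refine ⟨false, fun h1 => absurd h1 (lt_irrefl _), ?_⟩
    rw [cnt_zero]
    exact ReflTransGen.refl
  | succ y ih =>
    intro hy
    obtain ⟨b0, hb0, hrun⟩ := ih (by omega)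
    have hyB : y < 2 ^ h := by omega
    obtain ⟨hx1, hx2, hx3, hx4, hx5⟩ := hx
    have hk : x.k ≤ 2 ^ h := by
      rw [hx2]
      exact (Nat.mod_lt _ (Nat.two_pow_pos h)).le
    have hmok : MOK h rel p0 facc w t (mem0 x w[t]? y (cnt rel p0 w t y) b0) := by
      refine ⟨hx1, hx2, hx3, hx4, Nat.zero_le _, ⟨∅, ?_, rfl, ?_⟩, Or.inl ⟨rfl, ht, rfl, hyB.le,
        rfl, hb0⟩⟩
      · intro q hq
        exact absurd hq (Finset.notMem_empty _)
      · constructor
        · intro h1
          exact absurd h1 (by simp [mem0])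
        · rintro ⟨q, hq, -⟩
          exact absurd hq (Finset.notMem_empty _)
    have hbd : BdM h (mem0 x w[t]? y (cnt rel p0 w t y) b0) := by
      refine ⟨hk, ?_, ?_, Nat.zero_le _, hyB.le, cnt_le w t y, Nat.zero_le _, Nat.zero_le _,
        Nat.zero_le _⟩
      · change x.c ≤ _
        rw [hx3]
        exact cN_le w t
      · change x.cb ≤ _
        rw [hx4]
        exact cN_le w _
    obtain ⟨f, hf, hrun2⟩ := hE A h rel p0 facc w t τ ht.le (by
      rw [min_eq_left (by omega)]
      exact hA) _ hmok hbd rfl rfl rfl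
    have hf' : f = true ↔ nr h rel p0 w (t + 1) (ix h y) := by
      rw [hf]
      constructor
      · rintro ⟨q, hq, hq2⟩
        refine ⟨q, hq, w[t], List.getElem?_eq_getElem ht, ?_⟩
        have h3 : tst h rel facc (mem0 x w[t]? y (cnt rel p0 w t y) b0) q =
            rel w[t] q (ix h y) := by
          simp [tst, mem0, List.getElem?_eq_getElem ht]
        rw [← h3]
        exact hq2
      · rintro ⟨q, hq, a, ha, haq⟩
        refine ⟨q, hq, ?_⟩
        have h3 : tst h rel facc (mem0 x w[t]? y (cnt rel p0 w t y) b0) q =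
            rel a q (ix h y) := by
          simp [tst, mem0, ha]
        rw [h3]
        exact haq
    refine ⟨if y = 0 then f else b0, ?_, ?_⟩
    · intro _
      by_cases hy0 : y = 0
      · rw [if_pos hy0, hf', hy0]
      · rw [if_neg hy0]
        exact hb0 (Nat.pos_of_ne_zero hy0)
    · refine (hrun.trans hrun2).trans ?_
      have hhop := Hop.nexty (A := A) (h := h)
        { mem0 x w[t]? y (cnt rel p0 w t y) b0 with
          z := 2 ^ h
          d := cN h rel p0 w (qpos h t (mem0 x w[t]? y (cnt rel p0 w t y) b0))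
          f := f }
        rfl rfl hyB (by
          change cN h rel p0 w (qpos h t (mem0 x w[t]? y (cnt rel p0 w t y) b0)) = x.c
          rw [hx3]
          rfl)
      have hcn : cnt rel p0 w t (y + 1) = cnt rel p0 w t y + (if f = true then 1 else 0) := by
        unfold cnt
        rw [cnt_succ _ hyB]
        congr 1
        by_cases hf0 : f = true
        · rw [if_pos hf0, if_pos (hf'.1 hf0)]
        · rw [if_neg hf0, if_neg (fun h1 => hf0 (hf'.2 h1))]
      rw [hcn]
      refine hop2 hhop ?_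
      refine ⟨hk, ?_, ?_, Nat.zero_le _, hyB, ?_, Nat.zero_le _, Nat.zero_le _, Nat.zero_le _⟩
      · change x.c ≤ _
        rw [hx3]
        exact cN_le w t
      · change x.cb ≤ _
        rw [hx4]
        exact cN_le w _
      · change cnt rel p0 w t y + (if f = true then 1 else 0) ≤ _
        rw [← hcn]
        exact cnt_le w t _

end defs

theorem t_NXT (hE : S_ENU) : S_NXT := by
  intro A h rel p0 facc w t τ ht hA x hx
  obtain ⟨b0, hb0, hrun⟩ := loop (facc := facc) hE ht hA hx (2 ^ h) le_rfl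
  have hpos := Nat.two_pow_pos h
  have hb0' := hb0 hpos
  rw [cnt_top] at hrun
  obtain ⟨hx1, hx2, hx3, hx4, hx5⟩ := hx
  have hdm := Nat.div_add_mod t (2 ^ h)
  have hml := Nat.mod_lt t hpos
  by_cases hk : x.k + 1 = 2 ^ h
  · -- new block
    have hdvd : 2 ^ h ∣ t + 1 := ⟨t / 2 ^ h + 1, by rw [mul_add, mul_one]; omega⟩
    have e1 : (t + 1) / 2 ^ h * 2 ^ h = t + 1 := Nat.div_mul_cancel hdvd
    have e2 : (t + 1) % 2 ^ h = 0 := Nat.mod_eq_zero_of_dvd hdvd
    refine ⟨⟨false, 0, cN h rel p0 w (t + 1), cN h rel p0 w (t + 1), b0⟩, ⟨?_, ?_, rfl, ?_, ?_⟩,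
      hrun.trans (exit2 (Exit.new (mem0 x w[t]? (2 ^ h) (cN h rel p0 w (t + 1)) b0) rfl rfl hk)
        ⟨Nat.zero_le _, cN_le w _, cN_le w _⟩)⟩
    · change false = decide (t + 1 < 2 ^ h)
      symm
      rw [decide_eq_false_iff_not, not_lt]
      exact Nat.le_of_dvd (Nat.succ_pos t) hdvd
    · change 0 = (t + 1) % 2 ^ h
      rw [e2]
    · change cN h rel p0 w (t + 1) = cN h rel p0 w ((t + 1) / 2 ^ h * 2 ^ h)
      rw [e1]
    · change b0 = true ↔ nr h rel p0 w ((t + 1) / 2 ^ h * 2 ^ h) (ix h (t + 1))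
      rw [hb0', e1]
      have : ix h (t + 1) = ix h 0 := by
        apply Fin.ext
        rw [ix_val, ix_val, e2, Nat.zero_mod]
      rw [this]
  · have hk2 : x.k + 1 < 2 ^ h := by omega
    have e0 : (t + 1) / 2 ^ h = t / 2 ^ h := by
      have h1 : t + 1 = (x.k + 1) + 2 ^ h * (t / 2 ^ h) := by omega
      rw [h1, Nat.add_mul_div_left _ _ hpos, Nat.div_eq_of_lt hk2, zero_add]
    have e2 : (t + 1) % 2 ^ h = x.k + 1 := by
      have h1 : t + 1 = (x.k + 1) + 2 ^ h * (t / 2 ^ h) := by omega
      rw [h1, Nat.add_mul_mod_self_left, Nat.mod_eq_of_lt hk2]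
    by_cases hf : x.first = true
    · -- first block
      have htB : t < 2 ^ h := by
        rw [hx1] at hf
        exact of_decide_eq_true hf
      have hkt : x.k = t := by
        rw [hx2]
        exact Nat.mod_eq_of_lt htB
      have e3 : t / 2 ^ h = 0 := Nat.div_eq_of_lt htB
      refine ⟨⟨true, x.k + 1, cN h rel p0 w (t + 1), x.cb, decide (ix h (x.k + 1) = p0)⟩,
        ⟨?_, ?_, rfl, ?_, ?_⟩,
        hrun.trans (exit2 (Exit.fst (mem0 x w[t]? (2 ^ h) (cN h rel p0 w (t + 1)) b0) rfl rfl hk2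
          hf) ⟨hk2.le, cN_le w _, ?_⟩)⟩
      · change true = decide (t + 1 < 2 ^ h)
        symm
        rw [decide_eq_true_eq]
        omega
      · change x.k + 1 = (t + 1) % 2 ^ h
        rw [e2]
      · change x.cb = cN h rel p0 w ((t + 1) / 2 ^ h * 2 ^ h)
        rw [e0]
        exact hx4
      · change decide (ix h (x.k + 1) = p0) = true ↔
          nr h rel p0 w ((t + 1) / 2 ^ h * 2 ^ h) (ix h (t + 1))
        rw [e0, e3, zero_mul, decide_eq_true_eq, hkt]
        exact Iff.rfl
      · change x.cb ≤ _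
        rw [hx4]
        exact cN_le w _
    · -- another bit
      have hf' : x.first = false := by
        cases hff : x.first
        · rfl
        · exact absurd hff hf
      have htB : 2 ^ h ≤ t := by
        rw [hx1] at hf'
        exact not_lt.1 (of_decide_eq_false hf')
      have hk' : x.k ≤ 2 ^ h := by omega
      have hc' : x.c ≤ 2 ^ h := by
        rw [hx3]
        exact cN_le w t
      have hcb' : x.cb ≤ 2 ^ h := by
        rw [hx4]
        exact cN_le w _
      set m2 : Mem A := { mem0 x w[t]? (2 ^ h) (cN h rel p0 w (t + 1)) b0 with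
        job := 1, z := 0, d := 0, f := false, c' := cN h rel p0 w (t + 1) } with hm2
      have hbd2 : BdM h m2 := ⟨hk', hc', hcb', one_le_two, le_rfl, cN_le w _, Nat.zero_le _,
        Nat.zero_le _, cN_le w _⟩
      have hhop : Hop h (mem0 x w[t]? (2 ^ h) (cN h rel p0 w (t + 1)) b0) m2 :=
        Hop.bits (mem0 x w[t]? (2 ^ h) (cN h rel p0 w (t + 1)) b0) rfl rfl hk2 hf'
      have hmok : MOK h rel p0 facc w t m2 := by
        refine ⟨hx1, hx2, hx3, hx4, Nat.zero_le _, ⟨∅, ?_, rfl, ?_⟩, Or.inr (Or.inl ⟨rfl, ht, hf',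
          hk2, rfl⟩)⟩
        · intro q hq
          exact absurd hq (Finset.notMem_empty _)
        · constructor
          · intro h1
            exact absurd h1 (by simp [hm2, mem0])
          · rintro ⟨q, hq, -⟩
            exact absurd hq (Finset.notMem_empty _)
      obtain ⟨f, hfb, hrun2⟩ := hE A h rel p0 facc w t τ ht.le (by
        rw [min_eq_left (by omega)]
        exact hA) m2 hmok hbd2 rfl rfl rfl
      have hq : qpos h t m2 = t / 2 ^ h * 2 ^ h := by
        unfold qpos
        rw [if_pos (show m2.job = 1 from rfl)]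
      rw [hq] at hfb hrun2
      refine ⟨⟨false, x.k + 1, cN h rel p0 w (t + 1), x.cb, f⟩, ⟨?_, ?_, rfl, ?_, ?_⟩,
        ((hrun.trans (hop2 hhop hbd2)).trans hrun2).trans (exit2 (Exit.bit
          { m2 with z := 2 ^ h, d := cN h rel p0 w (t / 2 ^ h * 2 ^ h), f := f } rfl rfl hx4.symm)
          ⟨hk2.le, cN_le w _, hcb'⟩)⟩
      · change false = decide (t + 1 < 2 ^ h)
        symm
        rw [decide_eq_false_iff_not]
        omega
      · change x.k + 1 = (t + 1) % 2 ^ h
        rw [e2]
      · change x.cb = cN h rel p0 w ((t + 1) / 2 ^ h * 2 ^ h)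
        rw [e0]
        exact hx4
      · change f = true ↔ nr h rel p0 w ((t + 1) / 2 ^ h * 2 ^ h) (ix h (t + 1))
        rw [e0, hfb]
        have htst : ∀ q, tst h rel facc m2 q = true ↔ q = ix h (t + 1) := by
          intro q
          have h3 : tst h rel facc m2 q = decide (q.val = x.k + 1) := rfl
          rw [h3, decide_eq_true_eq]
          constructor
          · intro h4
            apply Fin.ext
            rw [ix_val, e2, h4]
          · intro h4
            rw [h4, ix_val, e2]
        constructor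
        · rintro ⟨q, hq1, hq2⟩
          rw [(htst q).1 hq2] at hq1
          exact hq1
        · intro h4
          exact ⟨_, h4, (htst _).2 rfl⟩

end Pool.Agent.L0h88.CX
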